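import Mathlib
import Pool.Agent.Lib.MP_106823_nt.Pade

namespace Pool.Agent.Results.MP_106823_nt.SquaresDivergent

/-- The accelerated `3x+1` map: divide `3x+1` by the full power of `2`. -/
def next (x : ℕ) : ℕ := (3 * x + 1) / 2 ^ padicValNat 2 (3 * x + 1)

/-- The `n`-th term (`n ≥ 1`) of the E-sequence of `x`: the exponent of `2` in `3 x_{n-1} + 1`. -/
def eSeq (x n : ℕ) : ℕ := padicValNat 2 (3 * next^[n - 1] x + 1)

/-- `q n = 2` if `n` is a perfect square at least `4`, and `q n = 1` otherwise. -/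
def q (n : ℕ) : ℕ := if 4 ≤ n ∧ IsSquare n then 2 else 1

lemma step (x n : ℕ) : 2 ^ eSeq x (n + 1) * next^[n + 1] x = 3 * next^[n] x + 1 := by
  rw [Function.iterate_succ_apply', eSeq, Nat.add_sub_cancel]
  exact Nat.mul_div_cancel' pow_padicValNat_dvd

lemma q_between (m i : ℕ) (hi : i < 2 * m) : q (m ^ 2 + i + 1) = 1 := by
  unfold q
  rw [if_neg]
  rintro ⟨-, r, hr⟩
  rcases le_or_gt r m with h | h
  · nlinarith [Nat.mul_le_mul h h]
  · nlinarith [Nat.mul_le_mul h h]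

lemma q_square (m : ℕ) (hm : 1 ≤ m) : q (m ^ 2 + 2 * m + 1) = 2 := by
  unfold q
  rw [if_pos]
  exact ⟨by nlinarith, m + 1, by ring⟩

/-- No odd positive integer has the sequence `q` as its E-sequence. -/
theorem result : ¬ ∃ x : ℕ, Odd x ∧ ∀ n : ℕ, 1 ≤ n → eSeq x n = q n := by
  rintro ⟨x, -, h⟩
  have hrun : ∀ m i, i ≤ 2 * m →
      2 ^ i * (next^[m ^ 2 + i] x + 1) = 3 ^ i * (next^[m ^ 2] x + 1) := by
    intro m i
    induction i with
    | zero => simp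
    | succ i ih =>
      intro hi
      have h1 := step x (m ^ 2 + i)
      rw [h _ (by omega), q_between m i (by omega)] at h1
      have h2 := ih (by omega)
      rw [← add_assoc, pow_succ 2 i, pow_succ 3 i]
      linear_combination 2 ^ i * h1 + 3 * h2
  have hrec : ∀ m, 1 ≤ m → 2 ^ (2 * m + 1) * (2 * (next^[(m + 1) ^ 2] x + 1))
      = 3 ^ (2 * m + 1) * (next^[m ^ 2] x + 1) + 2 ^ (2 * m + 1) := by
    intro m hm
    have h1 := step x (m ^ 2 + 2 * m)
    rw [h _ (by omega), q_square m hm] at h1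
    have h2 := hrun m (2 * m) le_rfl
    rw [show (m + 1) ^ 2 = m ^ 2 + 2 * m + 1 by ring, pow_succ 2 (2 * m), pow_succ 3 (2 * m)]
    linear_combination 2 ^ (2 * m) * h1 + 3 * h2
  have hdvd : ∀ m, 1 ≤ m → 2 ^ (2 * m + 1) ∣ next^[m ^ 2] x + 1 := by
    intro m hm
    have h1 : 2 ^ (2 * m + 1) ∣ 3 ^ (2 * m + 1) * (next^[m ^ 2] x + 1) := by
      have h2 : 2 ^ (2 * m + 1) ∣ 3 ^ (2 * m + 1) * (next^[m ^ 2] x + 1) + 2 ^ (2 * m + 1) :=
        ⟨_, (hrec m hm).symm⟩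
      exact (Nat.dvd_add_left (dvd_refl _)).mp h2
    exact (Nat.Coprime.pow _ _ (by norm_num)).dvd_of_dvd_mul_left h1
  apply Pool.Agent.Lib.MP_106823_nt.no_sequence (fun m => (next^[m ^ 2] x + 1) / 2 ^ (2 * m + 1))
  intro m hm
  have h1 := hrec m (by omega)
  obtain ⟨a, ha⟩ := hdvd m (by omega)
  obtain ⟨b, hb⟩ := hdvd (m + 1) (by omega)
  rw [ha, hb] at h1 ⊢
  rw [Nat.mul_div_cancel_left _ (by positivity), Nat.mul_div_cancel_left _ (by positivity)]
  apply Nat.eq_of_mul_eq_mul_left (show 0 < 2 ^ (2 * m + 1) by positivity)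
  calc 2 ^ (2 * m + 1) * (2 ^ (2 * m + 4) * b) = 2 ^ (2 * m + 1) * (2 * (2 ^ (2 * (m + 1) + 1) * b)) := by
        ring
    _ = _ := by rw [h1]; ring

end Pool.Agent.Results.MP_106823_nt.SquaresDivergent
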